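import Pool.Agent.H5.RPG.Stmts

set_option autoImplicit false

namespace Pool.RPG

open Filter TMLib Pool.PG

theorem wnk_evb (n : ℕ) : evb n = true ↔ Even n := by
  induction n with
  | zero => exact ⟨fun _ => Even.zero, fun _ => rfl⟩
  | succ n ih =>
    have h : evb (n + 1) = !evb n := rfl
    rw [h, Nat.even_add_one, ← ih]
    cases evb n <;> simp

theorem wnk_thm (h1 : KITStmt) (h2 : SOLStmt) : WNKStmt := by
  intro g i v hg hv
  obtain ⟨S, hvS, hcl⟩ := ((h1 g i).2 v).1 hv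
  by_contra hne
  obtain ⟨⟨σ, hσ⟩, -⟩ := h2 g hg
  have hex : ∀ u : ℕ, ∃ w : ℕ, u ∈ S → w ∈ suc g u ∧ w ∈ S := by
    intro u
    by_cases hu : u ∈ S
    · obtain ⟨w, hw, hw'⟩ := (hcl u hu).2.2.2
      exact ⟨w, fun _ => ⟨hw, hw'⟩⟩
    · exact ⟨0, fun h => absurd h hu⟩
  choose f hf using hex
  have hxS : ∀ n : ℕ, f^[n] v ∈ S := by
    intro n
    induction n with
    | zero => exact hvS
    | succ n ih =>
      rw [Function.iterate_succ_apply']
      exact (hf _ ih).2
  have hplay : Play g v (fun n => f^[n] v) := by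
    refine ⟨rfl, fun n => ?_⟩
    show f^[n + 1] v ∈ suc g (f^[n] v)
    rw [Function.iterate_succ_apply']
    exact (hf _ (hxS n)).1
  have hwon := hσ.won v (hcl v hvS).1 (fun n => f^[n] v) hplay (by
    intro n h
    have h' : own g (f^[n] v) = win g v := h
    rw [(hcl _ (hxS n)).2.1] at h'
    exact absurd h'.symm hne)
  obtain ⟨p, hp, -, hpe⟩ := hwon
  obtain ⟨n, hn⟩ := hp.exists
  have hn' : pri g (f^[n] v) = p := hn
  have he := (hcl _ (hxS n)).2.2.1
  rw [hn'] at he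
  apply hne
  rw [Bool.eq_iff_iff, ← hpe, ← wnk_evb, he]

end Pool.RPG
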